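import Pool.Agent.N686.EL.Loops
import Pool.Agent.N686.EL.IntRoots
set_option autoImplicit false

/-!
Beilinson's regulator conjecture (`K_2` of curves, full rank at a complex place): a criterion for the
hyperelliptic curves `z + 1/z = F(x)` of every genus `g` over number fields, in terms of the critical
values of `F` only. If all critical values `v` of `F` at a complex place lie outside of the ellipse
`|v - 2| + |v + 2| = 5`, then any `g + 1` special points (`F(b) = ζ + 1/ζ`) on different arcs of
`F ⁻¹ [-2, 2]` give `g` unramified classes in `K_2` with linearly independent regulators at this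
place. For the roots of `F`, the ellipse `|v - 2| + |v + 2| = 3 √2` suffices. For `F = m ∏ (x - b_i)`
with different integers `b_i` this condition is satisfied by all but finitely many curves (up to
translations of `x`), and always if `g ≥ 5` and `m ≠ 0`.
-/

namespace Pool.Agent.Results.MP_743d1e_nt.EllipseCriterion

open Polynomial

open Pool.Agent.TH826.MK (KQ symb Torus Unramified)

open Pool.Agent.TH826.HD (PRing POpen pent toP pcst pDel isDomain_PRing pDel_ne_zero liftP
  liftP_toP)

open Pool.Agent.Y775.CC (SmoothPts smoothPts)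

open Pool.Agent.N686.EL

/-- At the complex place `s`, the sum of the distances of each critical value of `F` from the points
`2` and `-2` is greater than `ρ`, that is, the critical values lie outside of the ellipse
`|v - 2| + |v + 2| ≤ ρ` with the foci `2` and `-2`. -/
def CritOutside {K : Type*} [Field K] (s : K →+* ℂ) (F : K[X]) (ρ : ℝ) : Prop :=
  ∀ x : ℂ, (derivative F).eval₂ s x = 0 → ρ < ‖F.eval₂ s x - 2‖ + ‖F.eval₂ s x + 2‖

/-- `κ` is of the form `ζ + 1/ζ` with a root of unity `ζ` of the algebraic closure. -/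
def Cyclotomic {K : Type*} [Field K] (κ : K) : Prop :=
  ∃ (ζ : AlgebraicClosure K) (k : ℕ), k ≠ 0 ∧ ζ ^ k = 1 ∧
    algebraMap K (AlgebraicClosure K) κ = ζ + ζ⁻¹

/-- The points `s b_m` lie in different connected components of the inverse image of the interval
`[-2, 2]` under `F` at the complex place `s`. -/
def DifferentArcs {K : Type*} [Field K] (s : K →+* ℂ) (F : K[X]) {r : ℕ} (b : Fin r → K) : Prop :=
  Function.Injective fun m =>
    connectedComponentIn {x : ℂ | ∃ t : ℝ, |t| ≤ 2 ∧ F.eval₂ s x = t} (s (b m))

/-- The symbols `{z, (x - b_m) / (x - b_l)}` are unramified at all discrete valuations of the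
function field `M` of the curve `z² - F(x) z + 1 = 0`. -/
def UnramifiedSymbols.{u, w} {K : Type u} [Field K] {r : ℕ} (F : K[X]) (b : Fin r → K) : Prop :=
  ∀ (M : Type w) [Field M] [Algebra (PRing F) M] [IsFractionRing (PRing F) M],
    ∃ f : POpen F b →+* M, (∀ a : PRing F, f (toP F b a) = algebraMap (PRing F) M a) ∧
      ∀ m l, KQ.map 2 f (symb (pent F b m l)) ∈ Unramified M 2

/-- There are `g` loops in the complex points over `s` of the open part `∏ (x - b_m) ≠ 0` of the
curve `z² - F(x) z + 1 = 0`, such that the determinant of the regulators on the loops of the `g`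
symbols `{z, (x - b_k) / (x - b_0)}`, `1 ≤ k ≤ g`, does not vanish. -/
def IndependentRegulators {K : Type*} [Field K] (s : K →+* ℂ) {g : ℕ} (F : K[X])
    (b : Fin (g + 1) → K) : Prop :=
  ∃ Γ : Fin g → Torus (POpen F b) 1,
    (∀ l θ (y : K), (Γ l).e θ (pcst F b y) = s y) ∧
    (Matrix.of fun l k : Fin g => (Γ l).reg (symb (pent F b k.succ 0))).det ≠ 0

theorem Cyclotomic.exists_root {K : Type*} [Field K] {κ : K} (h : Cyclotomic κ) (s : K →+* ℂ) :
    ∃ (ζ : ℂ) (k : ℕ), k ≠ 0 ∧ ζ ^ k = 1 ∧ s κ = ζ + ζ⁻¹ := by
  obtain ⟨ζ, k, hk, h1, h2⟩ := h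
  let _ := s.toAlgebra
  set f : AlgebraicClosure K →ₐ[K] ℂ := IsAlgClosed.lift with hf
  refine ⟨f ζ, k, hk, by rw [← map_pow, h1, map_one], ?_⟩
  have h3 : f (algebraMap K (AlgebraicClosure K) κ) = s κ := f.commutes κ
  rw [← h3, h2, map_add, map_inv₀]

/-- The criterion: the three conclusions for the polynomial `F` of degree `g + 1`. -/
theorem criterion.{u, v} (g : ℕ) (K : Type u) [Field K] [NumberField K] (F : K[X])
    (hF : ∀ i, IsIntegral ℤ (F.coeff i)) (hdeg : F.natDegree = g + 1) :
    IsDomain (PRing F) ∧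
    (∀ (r : ℕ) (b : Fin r → K), (∀ m, IsIntegral ℤ (b m)) → (∀ m, Cyclotomic (F.eval (b m))) →
      UnramifiedSymbols.{u, v} F b) ∧
    ∀ s : K →+* ℂ, (CritOutside s F 4 → SmoothPts s F) ∧
      (CritOutside s F 5 → ∀ b : Fin (g + 1) → K, (∀ m, Cyclotomic (F.eval (b m))) →
        DifferentArcs s F b → IndependentRegulators s F b) ∧
      (CritOutside s F (3 * √2) → ∀ b : Fin (g + 1) → K, (∀ m, F.eval (b m) = 0) →
        Function.Injective b → IndependentRegulators s F b) := by
  have hdegF : 0 < F.natDegree := by omega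
  refine ⟨isDomain_PRing hdegF, ?_, fun s => ⟨fun h => ?_, fun h b hb hinj => ?_,
    fun h b hb hinj => crit_sqrt hdeg h b hb hinj⟩⟩
  · intro r b hint hb M _ _ _
    obtain ⟨s⟩ : Nonempty (K →+* ℂ) := inferInstance
    have hinj : Function.Injective (algebraMap (PRing F) M) := IsFractionRing.injective _ _
    have hne : algebraMap (PRing F) M (pDel F b) ≠ 0 := by
      rw [Ne, map_eq_zero_iff _ hinj]
      exact pDel_ne_zero b
    exact ⟨liftP (algebraMap (PRing F) M) hne, fun a => liftP_toP _ _ _,
      fun m l => Pool.Agent.TH826.UH.symb_mem_unramified _ s hF hint m l fun m =>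
        (hb m).exists_root s⟩
  · refine smoothPts fun x hx t ht hv => ?_
    have h1 := h x hx
    rw [hv, dist_real ht] at h1
    exact lt_irrefl _ h1
  · refine crit_two hdeg h b (fun m => ?_) hinj
    obtain ⟨ζ, k, hk, h1, h2⟩ := (hb m).exists_root s
    refine ⟨ζ, ?_, h2⟩
    have h3 := congrArg norm h1
    rw [norm_pow, norm_one] at h3
    exact (pow_eq_one_iff_of_nonneg (norm_nonneg _) hk).1 h3

/-- The polynomial `m (x - b_0) ... (x - b_g)` with rational integers `m` and `b_i`. -/
noncomputable def intPoly {g : ℕ} (m : ℤ) (b : Fin (g + 1) → ℤ) : ℚ[X] :=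
  C (m : ℚ) * ∏ i, (X - C (b i : ℚ))

theorem natDegree_intPoly {g : ℕ} {m : ℤ} (hm : m ≠ 0) (b : Fin (g + 1) → ℤ) :
    (intPoly m b).natDegree = g + 1 := by
  unfold intPoly
  rw [natDegree_C_mul (by exact_mod_cast hm), natDegree_prod_of_monic _ _ fun i _ =>
    monic_X_sub_C _]
  simp only [natDegree_X_sub_C, Finset.sum_const, Finset.card_univ, Fintype.card_fin, smul_eq_mul,
    mul_one]

theorem isIntegral_intPoly {g : ℕ} (m : ℤ) (b : Fin (g + 1) → ℤ) (i : ℕ) :
    IsIntegral ℤ ((intPoly m b).coeff i) := by
  have h : intPoly m b = (C m * ∏ i, (X - C (b i))).map (Int.castRingHom ℚ) := by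
    unfold intPoly
    rw [Polynomial.map_mul, Polynomial.map_C, Polynomial.map_prod]
    congr 1
    refine Finset.prod_congr rfl fun i _ => ?_
    rw [Polynomial.map_sub, Polynomial.map_X, Polynomial.map_C]
    rfl
  rw [h, coeff_map]
  exact isIntegral_algebraMap (R := ℤ) (A := ℚ)

theorem eval_intPoly {g : ℕ} (m : ℤ) (b : Fin (g + 1) → ℤ) (i : Fin (g + 1)) :
    (intPoly m b).eval (b i : ℚ) = 0 := by
  unfold intPoly
  rw [eval_mul, eval_prod, Finset.prod_eq_zero (Finset.mem_univ i) (by simp), mul_zero]

/-- *The criterion.* Let `K` be a number field, `F` a polynomial of degree `g + 1` whose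
coefficients are algebraic integers of `K`, and `C` the plane curve `z + 1/z = F(x)` over `K`, that
is, `z² - F(x) z + 1 = 0`. Then its coordinate ring is a domain, and for algebraic integers `b_m` of
`K` with values `F(b_m)` of the form `ζ + 1/ζ` with roots of unity `ζ` the symbols
`{z, (x - b_m) / (x - b_l)}` are unramified at all discrete valuations of the function field of `C`.
Let `s` be an embedding of `K` into `ℂ`.

(1) If no critical value of `F` at `s` lies in `[-2, 2]`, then `C` is smooth at its complex points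
over `s` (it is the affine part of a hyperelliptic curve of genus `g`).

(2) Suppose that `|v - 2| + |v + 2| > 5` for all critical values `v` of `F` at `s`. Let
`b_0, ..., b_g` be elements of `K` in different components of the inverse image of `[-2, 2]` under
`F` at `s`, such that the values `F(b_m)` are of the form `ζ + 1/ζ` with roots of unity. Then there
are `g` loops in the complex points of `C` over `s` such that the determinant of the regulators of
the `g` symbols `{z, (x - b_k) / (x - b_0)}` on the `g` loops does not vanish.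

(3) The same holds for `g + 1` different roots `b_m` of `F` in `K`, if `|v - 2| + |v + 2| > 3 √2` for
all critical values `v` of `F` at `s`.

*Integral roots.* Let `m` and `b_0, ..., b_g` be rational integers, the `b_i` different, such that
`|m| (b_i - b_j) ≥ 17` for some `i`, `j`, or `m ≠ 0` and `g ≥ 5`. Then the curve
`z + 1/z = m ∏ (x - b_i)` over `ℚ` is smooth at its complex points, the symbols
`{z, (x - b_i) / (x - b_j)}` are unramified, and the regulators of the `g` symbols
`{z, (x - b_k) / (x - b_0)}` on `g` loops have a nonzero determinant. -/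
theorem result.{u, v} (g : ℕ) :
    (∀ (K : Type u) [Field K] [NumberField K] (F : K[X]), (∀ i, IsIntegral ℤ (F.coeff i)) →
      F.natDegree = g + 1 →
      IsDomain (PRing F) ∧
      (∀ (r : ℕ) (b : Fin r → K), (∀ m, IsIntegral ℤ (b m)) → (∀ m, Cyclotomic (F.eval (b m))) →
        UnramifiedSymbols.{u, v} F b) ∧
      ∀ s : K →+* ℂ, (CritOutside s F 4 → SmoothPts s F) ∧
        (CritOutside s F 5 → ∀ b : Fin (g + 1) → K, (∀ m, Cyclotomic (F.eval (b m))) →
          DifferentArcs s F b → IndependentRegulators s F b) ∧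
        (CritOutside s F (3 * √2) → ∀ b : Fin (g + 1) → K, (∀ m, F.eval (b m) = 0) →
          Function.Injective b → IndependentRegulators s F b)) ∧
    ∀ (m : ℤ) (b : Fin (g + 1) → ℤ), Function.Injective b →
      ((∃ i j, 17 ≤ |m| * (b i - b j)) ∨ (m ≠ 0 ∧ 5 ≤ g)) → ∀ s : ℚ →+* ℂ,
        SmoothPts s (intPoly m b) ∧ UnramifiedSymbols.{0, v} (intPoly m b) (fun i => (b i : ℚ)) ∧
        IndependentRegulators s (intPoly m b) fun i => (b i : ℚ) := by
  refine ⟨fun K _ _ F hF hdeg => criterion.{u, v} g K F hF hdeg, fun m b hb h s => ?_⟩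
  have hm0 : m ≠ 0 := by
    rcases h with ⟨i, j, h⟩ | h
    · rintro rfl
      simp at h
    · exact h.1
  have hcrit : CritOutside s (intPoly m b) (3 * √2) := fun x hx =>
    crit_outside_int m b hb h s x hx
  have h4 : CritOutside s (intPoly m b) 4 := fun x hx => by
    refine lt_of_le_of_lt ?_ (hcrit x hx)
    have h2 : (4 / 3 : ℝ) ≤ √2 := by
      rw [Real.le_sqrt' (by norm_num)]
      norm_num
    linarith
  obtain ⟨-, h1, h2⟩ := criterion.{0, v} g ℚ (intPoly m b) (isIntegral_intPoly m b)
    (natDegree_intPoly hm0 b)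
  obtain ⟨h3, -, h5⟩ := h2 s
  refine ⟨h3 h4, h1 _ _ (fun i => ?_) fun i => ?_, h5 hcrit _ (eval_intPoly m b) fun i j hij =>
    hb (by exact_mod_cast hij)⟩
  · exact isIntegral_algebraMap (R := ℤ) (A := ℚ) (x := b i)
  · refine ⟨(IsAlgClosed.exists_pow_nat_eq (k := AlgebraicClosure ℚ) (-1) two_pos).choose, 4, by
      norm_num, ?_, ?_⟩
    · have h6 := (IsAlgClosed.exists_pow_nat_eq (k := AlgebraicClosure ℚ) (-1) two_pos).choose_spec
      calc _ = ((IsAlgClosed.exists_pow_nat_eq (k := AlgebraicClosure ℚ) (-1)
            two_pos).choose ^ 2) ^ 2 := by ring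
        _ = 1 := by rw [h6]; norm_num
    · have h6 := (IsAlgClosed.exists_pow_nat_eq (k := AlgebraicClosure ℚ) (-1) two_pos).choose_spec
      rw [eval_intPoly, map_zero]
      have h7 : (IsAlgClosed.exists_pow_nat_eq (k := AlgebraicClosure ℚ) (-1) two_pos).choose ≠ 0 := by
        intro h8
        rw [h8] at h6
        norm_num at h6
      field_simp
      rw [h6]
      norm_num

end Pool.Agent.Results.MP_743d1e_nt.EllipseCriterion
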