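import Pool.Agent.N686.RS.Rank
import Pool.Agent.N686.RS.Num
import Pool.Agent.N686.RS.IntR
import Pool.Agent.N686.EL.Loops
set_option autoImplicit false

/-!
Beilinson's regulator conjecture (`K_2` of curves): `g` unramified classes with linearly independent
regulators on the hyperelliptic curves `z + 1/z = F(x)` of every genus `g`, for polynomials
`F = κ + m ∏ (x - b_i)` with real critical values not too close to `κ = ζ + 1/ζ`. For rational
integers `b_i`, `m` this covers all smooth curves `z + 1/z = κ + m ∏ (x - b_i)`, `κ = 0, 1, -1`.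
-/

namespace Pool.Agent.Results.MP_743d1e_nt.RealRooted

open Polynomial

open Pool.Agent.TH826.MK (KQ symb Torus Unramified)

open Pool.Agent.TH826.HD (PRing POpen pent toP pcst pDel isDomain_PRing pDel_ne_zero liftP
  liftP_toP)

open Pool.Agent.Y775.CC (SmoothPts)

open Pool.Agent.N686.RR (prod_roots crit_real)

open Pool.Agent.N686.RS

/-- `κ` is of the form `ζ + 1/ζ` with a root of unity `ζ` of the algebraic closure. -/
def Cyclotomic {K : Type*} [Field K] (κ : K) : Prop :=
  ∃ (ζ : AlgebraicClosure K) (k : ℕ), k ≠ 0 ∧ ζ ^ k = 1 ∧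
    algebraMap K (AlgebraicClosure K) κ = ζ + ζ⁻¹

/-- The critical values of `F` at the complex place `s` are real. -/
def CritReal {K : Type*} [Field K] (s : K →+* ℂ) (F : K[X]) : Prop :=
  ∀ x : ℂ, (derivative F).eval₂ s x = 0 → (F.eval₂ s x).im = 0

/-- The critical values `v` of `F` at the complex place `s` are not too close to `κ`: all of them
satisfy `|v - κ| ≥ 3/8`, or there is `p` with `0 ≤ p ≤ 4` such that `p (v - κ) ≤ -1` or
`(4 - p) (v - κ) ≥ 1` for each of them (for real `v`, `κ`: no critical value lies in the interval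
from `κ - 1/p` to `κ + 1/(4 - p)`). -/
def CritDistant {K : Type*} [Field K] (s : K →+* ℂ) (F : K[X]) (κ : K) : Prop :=
  (∀ x : ℂ, (derivative F).eval₂ s x = 0 → 3 / 8 ≤ ‖F.eval₂ s x - s κ‖) ∨
  ∃ p : ℝ, 0 ≤ p ∧ p ≤ 4 ∧ ∀ x : ℂ, (derivative F).eval₂ s x = 0 →
    p * (F.eval₂ s x - s κ).re ≤ -1 ∨ 1 ≤ (4 - p) * (F.eval₂ s x - s κ).re

/-- The symbols `{z, (x - b_m) / (x - b_l)}` are unramified at all discrete valuations of the
function field `M` of the curve `z² - F(x) z + 1 = 0`. -/
def UnramifiedSymbols.{u, w} {K : Type u} [Field K] {r : ℕ} (F : K[X]) (b : Fin r → K) : Prop :=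
  ∀ (M : Type w) [Field M] [Algebra (PRing F) M] [IsFractionRing (PRing F) M],
    ∃ f : POpen F b →+* M, (∀ a : PRing F, f (toP F b a) = algebraMap (PRing F) M a) ∧
      ∀ m l, KQ.map 2 f (symb (pent F b m l)) ∈ Unramified M 2

/-- There are `g` loops in the complex points over `s` of the open part `∏ (x - b_m) ≠ 0` of the
curve `z² - F(x) z + 1 = 0`, such that the determinant of the regulators on the loops of the `g`
symbols `{z, (x - b_k) / (x - b_0)}`, `1 ≤ k ≤ g`, does not vanish. -/
def IndependentRegulators {K : Type*} [Field K] (s : K →+* ℂ) {g : ℕ} (F : K[X])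
    (b : Fin (g + 1) → K) : Prop :=
  ∃ Γ : Fin g → Torus (POpen F b) 1,
    (∀ l θ (y : K), (Γ l).e θ (pcst F b y) = s y) ∧
    (Matrix.of fun l k : Fin g => (Γ l).reg (symb (pent F b k.succ 0))).det ≠ 0

theorem Cyclotomic.exists_root {K : Type*} [Field K] {κ : K} (h : Cyclotomic κ) (s : K →+* ℂ) :
    ∃ (ζ : ℂ) (k : ℕ), k ≠ 0 ∧ ζ ^ k = 1 ∧ s κ = ζ + ζ⁻¹ := by
  obtain ⟨ζ, k, hk, h1, h2⟩ := h
  let _ := s.toAlgebra
  set f : AlgebraicClosure K →ₐ[K] ℂ := IsAlgClosed.lift with hf
  refine ⟨f ζ, k, hk, by rw [← map_pow, h1, map_one], ?_⟩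
  have h3 : f (algebraMap K (AlgebraicClosure K) κ) = s κ := f.commutes κ
  rw [← h3, h2, map_add, map_inv₀]

/-- the values are `2 cos (2πα)`, `0 < α < 1/2` -/
theorem Cyclotomic.exists_cos {K : Type*} [Field K] {κ : K} (h : Cyclotomic κ) (h4 : κ ^ 2 ≠ 4)
    (s : K →+* ℂ) : ∃ α : ℝ, 0 < α ∧ α < 1 / 2 ∧ s κ = ((2 * Real.cos (2 * Real.pi * α) : ℝ) : ℂ) := by
  have hπ := Real.pi_pos
  obtain ⟨ζ, k, hk, h1, h2⟩ := h.exists_root s
  have hn : ‖ζ‖ = 1 := by
    have h3 := congrArg norm h1
    rw [norm_pow, norm_one] at h3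
    exact (pow_eq_one_iff_of_nonneg (norm_nonneg _) hk).1 h3
  have hre : s κ = ((2 * ζ.re : ℝ) : ℂ) := by
    rw [h2, Complex.inv_def, Complex.normSq_eq_norm_sq, hn, one_pow, inv_one, Complex.ofReal_one,
      mul_one, Complex.add_conj]
  have hle : |ζ.re| ≤ 1 := by
    have := Complex.abs_re_le_norm ζ
    rwa [hn] at this
  have hne : ∀ y : ℝ, ζ.re = y → y ^ 2 = 1 → False := by
    intro y hy hy2
    apply h4
    apply s.injective
    rw [map_pow, hre, hy]
    have e : s (4 : K) = 4 := map_ofNat s 4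
    rw [e]
    push_cast
    have : ((y : ℂ)) ^ 2 = 1 := by exact_mod_cast hy2
    linear_combination 4 * this
  have hlt1 : ζ.re < 1 := lt_of_le_of_ne (abs_le.1 hle).2 fun h => hne 1 h (by norm_num)
  have hlt2 : -1 < ζ.re := lt_of_le_of_ne (abs_le.1 hle).1 fun h => hne (-1) h.symm (by norm_num)
  refine ⟨Real.arccos ζ.re / (2 * Real.pi), ?_, ?_, ?_⟩
  · exact div_pos (Real.arccos_pos.2 hlt1) (by positivity)
  · rw [div_lt_iff₀ (by positivity)]
    have h5 : Real.arccos ζ.re < Real.pi := by
      refine lt_of_le_of_ne (Real.arccos_le_pi _) fun h6 => ?_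
      have h7 := congrArg Real.cos h6
      rw [Real.cos_arccos hlt2.le hlt1.le, Real.cos_pi] at h7
      linarith
    linarith
  · rw [hre, mul_div_cancel₀ _ (by positivity), Real.cos_arccos hlt2.le hlt1.le]

theorem SmoothPts.ne {K : Type*} [Field K] {s : K →+* ℂ} {F : K[X]} (h : SmoothPts s F) {x : ℂ}
    (hx : (derivative F).eval₂ s x = 0) : F.eval₂ s x ≠ 2 ∧ F.eval₂ s x ≠ -2 := by
  constructor
  · intro hv
    rcases h x 1 (by rw [hv]; norm_num) with h1 | h1
    · rw [hv] at h1
      norm_num at h1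
    · rw [hx] at h1
      simp at h1
  · intro hv
    rcases h x (-1) (by rw [hv]; norm_num) with h1 | h1
    · rw [hv] at h1
      norm_num at h1
    · rw [hx] at h1
      simp at h1

/-- At a real place the critical values are real. -/
theorem critReal_of_real {K : Type*} [Field K] {g : ℕ} {F : K[X]} (hdeg : F.natDegree = g + 1)
    {κ : K} {b : Fin (g + 1) → K} (hb : Function.Injective b) (hF : ∀ i, F.eval (b i) = κ)
    {s : K →+* ℂ} (hs : ∀ y, (s y).im = 0) : CritReal s F := by
  have hsre : ∀ y, s y = ((s y).re : ℂ) := fun y => Complex.ext (by simp) (by simpa using hs y)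
  have hinj : Function.Injective fun i => s (b i) := s.injective.comp hb
  have hev : ∀ i, (F.map s).eval (s (b i)) = s κ := fun i => by
    rw [eval_map, eval₂_hom, hF]
  obtain ⟨m, hm, hprod⟩ := prod_roots (G := F.map s) (n := g) (by rw [natDegree_map, hdeg]) hinj hev
  have hmap : F.map s = C (s κ) + C m * ∏ i, (X - C (s (b i))) := by
    refine Polynomial.funext fun x => ?_
    rw [eval_add, eval_C, eval_mul, eval_C, eval_prod]
    simp only [eval_sub, eval_X, eval_C]
    rw [← hprod x]
    ring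
  intro x hx
  have hd : (derivative (∏ i, (X - C (((s (b i)).re : ℝ) : ℂ)))).eval x = 0 := by
    simp only [← hsre]
    rw [← eval_map, ← derivative_map, hmap, derivative_add, derivative_C, zero_add,
      derivative_C_mul, eval_mul, eval_C] at hx
    exact (mul_eq_zero.1 hx).resolve_left hm
  have hxim : x.im = 0 := crit_real (Nat.succ_pos g) (fun i => (s (b i)).re) (fun i j hij => by
    apply hb
    apply s.injective
    rw [hsre (b i), hsre (b j)]
    simp only at hij
    rw [hij]) hd
  have hx' : x = ((x.re : ℝ) : ℂ) := Complex.ext (by simp) (by simpa using hxim)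
  rw [hx', Polynomial.eval₂_eq_sum_range, Complex.im_sum]
  refine Finset.sum_eq_zero fun i _ => ?_
  rw [hsre, ← Complex.ofReal_pow, ← Complex.ofReal_mul, Complex.ofReal_im]

theorem unramified.{u, v} {K : Type u} [Field K] [NumberField K] {F : K[X]}
    (hF : ∀ i, IsIntegral ℤ (F.coeff i)) {κ : K} (hκ : Cyclotomic κ) {r : ℕ} {b : Fin r → K}
    (hint : ∀ i, IsIntegral ℤ (b i)) (hb : ∀ i, F.eval (b i) = κ) : UnramifiedSymbols.{u, v} F b := by
  intro M _ _ _
  obtain ⟨s⟩ : Nonempty (K →+* ℂ) := inferInstance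
  have hinj : Function.Injective (algebraMap (PRing F) M) := IsFractionRing.injective _ _
  have hne : algebraMap (PRing F) M (pDel F b) ≠ 0 := by
    rw [Ne, map_eq_zero_iff _ hinj]
    exact pDel_ne_zero b
  exact ⟨liftP (algebraMap (PRing F) M) hne, fun a => liftP_toP _ _ _,
    fun m l => Pool.Agent.TH826.UH.symb_mem_unramified _ s hF hint m l fun m => by
      rw [hb]
      exact hκ.exists_root s⟩

theorem independent {K : Type*} [Field K] {g : ℕ} {F : K[X]} (hdeg : F.natDegree = g + 1)
    {κ : K} (hκ : Cyclotomic κ) (h4 : κ ^ 2 ≠ 4) {b : Fin (g + 1) → K} (hb : Function.Injective b)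
    (hF : ∀ i, F.eval (b i) = κ) {s : K →+* ℂ} (hsm : SmoothPts s F)
    (hreal : (∀ y, (s y).im = 0) ∨ CritReal s F) (hdist : CritDistant s F κ) :
    IndependentRegulators s F b := by
  obtain ⟨α, hα0, hα1, hα⟩ := hκ.exists_cos h4 s
  have hcr : CritReal s F := hreal.elim (critReal_of_real hdeg hb hF) id
  have hbv : ∀ i, (F.map s).eval (s (b i)) = ((2 * Real.cos (2 * Real.pi * α) : ℝ) : ℂ) := fun i => by
    rw [eval_map, eval₂_hom, hF, hα]
  have hval : ∀ x : ℂ, (derivative F).eval₂ s x = 0 → F.eval₂ s x = (((F.eval₂ s x).re : ℝ) : ℂ) :=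
    fun x hx => Complex.ext (by simp) (by simpa using hcr x hx)
  have h22 : ∀ x : ℂ, (derivative F).eval₂ s x = 0 →
      (F.eval₂ s x).re ≠ 2 ∧ (F.eval₂ s x).re ≠ -2 := by
    intro x hx
    have h1 := hval x hx
    refine ⟨fun h2 => (SmoothPts.ne hsm hx).1 ?_, fun h2 => (SmoothPts.ne hsm hx).2 ?_⟩
    · rw [h1, h2]
      norm_num
    · rw [h1, h2]
      norm_num
  rcases hdist with hdist | ⟨p, hp0, hp4, hdist⟩
  · refine exists_regs hdeg (p := 8 / 3) (q := 8 / 3) ⟨by norm_num, by norm_num, by norm_num⟩ rfl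
      hα0 hα1 (fun x hx => ?_) (lam_num rfl hα0 hα1) b hb hbv
    rw [derivative_map, eval_map] at hx
    rw [eval_map]
    have h1 := hval x hx
    refine ⟨(F.eval₂ s x).re, h1, ?_, h22 x hx⟩
    have h3 := hdist x hx
    rw [h1, hα, ← Complex.ofReal_sub, Complex.norm_real, Real.norm_eq_abs] at h3
    rcases le_abs.1 h3 with h | h
    · right
      linarith
    · left
      linarith
  · have Pq : Par p (4 - p) := ⟨hp0, by linarith, by linarith⟩
    refine exists_regs hdeg Pq rfl hα0 hα1 (fun x hx => ?_) ?_ b hb hbv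
    · rw [derivative_map, eval_map] at hx
      rw [eval_map]
      refine ⟨(F.eval₂ s x).re, hval x hx, ?_, h22 x hx⟩
      have h3 := hdist x hx
      rw [Complex.sub_re, hα, Complex.ofReal_re] at h3
      exact h3
    · have h5 := lam_neg (wr_Wr Pq (2 * Real.cos (2 * Real.pi * α))) rfl hα0 hα1
      have e : (p + (4 - p)) / 4 = 1 := by ring
      rw [e, Real.log_one]
      linarith

/-- The polynomial `κ + m (x - b_0) ... (x - b_g)` with rational integers `b_i`. -/
noncomputable def rootPoly {K : Type*} [Field K] {g : ℕ} (κ m : K) (b : Fin (g + 1) → ℤ) : K[X] :=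
  C κ + C m * ∏ i, (X - C (b i : K))

section

variable {K : Type*} [Field K] {g : ℕ}

theorem natDegree_rootPoly (κ : K) {m : K} (hm : m ≠ 0) (b : Fin (g + 1) → ℤ) :
    (rootPoly κ m b).natDegree = g + 1 := by
  unfold rootPoly
  rw [natDegree_C_add, natDegree_C_mul hm, natDegree_prod_of_monic _ _ fun i _ =>
    monic_X_sub_C _]
  simp only [natDegree_X_sub_C, Finset.sum_const, Finset.card_univ, Fintype.card_fin, smul_eq_mul,
    mul_one]

theorem isIntegral_rootPoly {κ m : K} (hκ : IsIntegral ℤ κ) (hm : IsIntegral ℤ m)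
    (b : Fin (g + 1) → ℤ) (i : ℕ) : IsIntegral ℤ ((rootPoly κ m b).coeff i) := by
  have h : ∏ i, (X - C (b i : K)) = (∏ i, (X - C (b i))).map (Int.castRingHom K) := by
    rw [Polynomial.map_prod]
    refine Finset.prod_congr rfl fun i _ => ?_
    rw [Polynomial.map_sub, Polynomial.map_X, Polynomial.map_C]
    rfl
  unfold rootPoly
  rw [h, coeff_add, coeff_C_mul, coeff_map]
  refine IsIntegral.add ?_ (hm.mul ?_)
  · rw [coeff_C]
    split_ifs
    · exact hκ
    · exact isIntegral_zero
  · exact isIntegral_algebraMap (R := ℤ) (A := K)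

theorem eval_rootPoly (κ m : K) (b : Fin (g + 1) → ℤ) (i : Fin (g + 1)) :
    (rootPoly κ m b).eval (b i : K) = κ := by
  unfold rootPoly
  rw [eval_add, eval_C, eval_mul, eval_prod, Finset.prod_eq_zero (Finset.mem_univ i) (by simp),
    mul_zero, add_zero]

theorem eval₂_rootPoly (κ m : K) (b : Fin (g + 1) → ℤ) (s : K →+* ℂ) (x : ℂ) :
    (rootPoly κ m b).eval₂ s x = s κ + s m * ∏ i, (x - (b i : ℂ)) := by
  have hmap : (∏ i, (X - C (b i : K))).map s = ∏ i, (X - C (b i : ℂ)) := by
    rw [Polynomial.map_prod]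
    refine Finset.prod_congr rfl fun i _ => ?_
    rw [Polynomial.map_sub, Polynomial.map_X, Polynomial.map_C, map_intCast]
  unfold rootPoly
  rw [eval₂_add, eval₂_C, eval₂_mul, eval₂_C, ← eval_map, hmap, eval_prod]
  simp

theorem deriv_rootPoly {κ m : K} (hm : m ≠ 0) {b : Fin (g + 1) → ℤ} {s : K →+* ℂ} {x : ℂ}
    (hx : (derivative (rootPoly κ m b)).eval₂ s x = 0) :
    (derivative (∏ i, (X - C (b i : ℂ)))).eval x = 0 := by
  have hmap : (∏ i, (X - C (b i : K))).map s = ∏ i, (X - C (b i : ℂ)) := by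
    rw [Polynomial.map_prod]
    refine Finset.prod_congr rfl fun i _ => ?_
    rw [Polynomial.map_sub, Polynomial.map_X, Polynomial.map_C, map_intCast]
  unfold rootPoly at hx
  rw [derivative_add, derivative_C, zero_add, derivative_C_mul, eval₂_mul, eval₂_C, ← eval_map,
    ← derivative_map, hmap] at hx
  exact (mul_eq_zero.1 hx).resolve_left ((map_ne_zero s).2 hm)

end

theorem Cyclotomic.isIntegral {K : Type*} [Field K] [NumberField K] {κ : K} (h : Cyclotomic κ) :
    IsIntegral ℤ κ := by
  obtain ⟨ζ, k, hk, h1, h2⟩ := h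
  have hζ : IsIntegral ℤ ζ := IsIntegral.of_pow (Nat.pos_of_ne_zero hk) (by
    rw [h1]
    exact isIntegral_one)
  have hζ' : IsIntegral ℤ ζ⁻¹ := IsIntegral.of_pow (Nat.pos_of_ne_zero hk) (by
    rw [inv_pow, h1, inv_one]
    exact isIntegral_one)
  have h3 : IsIntegral ℤ (algebraMap K (AlgebraicClosure K) κ) := by
    rw [h2]
    exact hζ.add hζ'
  exact (isIntegral_algebraMap_iff (algebraMap K (AlgebraicClosure K)).injective).1 h3

theorem integers.{u, v} {g : ℕ} {K : Type u} [Field K] [NumberField K] {κ m : K}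
    (hκ : Cyclotomic κ) (h4 : κ ^ 2 ≠ 4) (hm : IsIntegral ℤ m) {b : Fin (g + 1) → ℤ}
    (hb : Function.Injective b) :
    UnramifiedSymbols.{u, v} (rootPoly κ m b) (fun i => (b i : K)) ∧
    ∀ s : K →+* ℂ, (s m).im = 0 → 1 ≤ ‖s m‖ → SmoothPts s (rootPoly κ m b) →
      IndependentRegulators s (rootPoly κ m b) fun i => (b i : K) := by
  refine ⟨unramified (isIntegral_rootPoly hκ.isIntegral hm b) hκ (fun i => ?_)
    fun i => eval_rootPoly κ m b i, fun s him h1 hsm => ?_⟩
  · exact isIntegral_algebraMap (R := ℤ) (A := K) (x := b i)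
  · have hm0 : m ≠ 0 := by
      rintro rfl
      rw [map_zero, norm_zero] at h1
      linarith
    have hmre : s m = (((s m).re : ℝ) : ℂ) := Complex.ext (by simp) (by simpa using him)
    obtain ⟨α, -, -, hα⟩ := hκ.exists_cos h4 s
    refine independent (natDegree_rootPoly κ hm0 b) hκ h4 (fun i j hij => hb (by simpa using hij))
      (eval_rootPoly κ m b) hsm (Or.inr fun x hx => ?_) ?_
    · have hd := deriv_rootPoly hm0 hx
      have hxim : x.im = 0 := crit_real (Nat.succ_pos g) (fun i => (b i : ℝ))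
        (fun i j hij => hb (by simpa using hij)) (by
          simpa only [Complex.ofReal_intCast] using hd)
      have hx' : x = ((x.re : ℝ) : ℂ) := Complex.ext (by simp) (by simpa using hxim)
      rw [eval₂_rootPoly, hα, hmre, hx']
      have e : ((2 * Real.cos (2 * Real.pi * α) : ℝ) : ℂ) +
          (((s m).re : ℝ) : ℂ) * ∏ i, (((x.re : ℝ) : ℂ) - (b i : ℂ)) =
          ((2 * Real.cos (2 * Real.pi * α) + (s m).re * ∏ i, (x.re - b i) : ℝ) : ℂ) := by
        push_cast
        rfl
      rw [e, Complex.ofReal_im]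
    · by_cases hg : g = 1
      · subst hg
        have hb1 : (1 : ℝ) ≤ ((b 0 : ℝ) - b 1) ^ 2 := by
          have h5 : b 0 - b 1 ≠ 0 := sub_ne_zero.2 fun h => by
            have := hb h
            simp at this
          have h6 : (1 : ℤ) ≤ (b 0 - b 1) ^ 2 := by
            have := Int.one_le_abs h5
            nlinarith [sq_abs (b 0 - b 1)]
          exact_mod_cast h6
        have hre : ∀ x : ℂ, (derivative (rootPoly κ m b)).eval₂ s x = 0 →
            ((rootPoly κ m b).eval₂ s x - s κ).re = -((s m).re * (((b 0 : ℝ) - b 1) ^ 2 / 4)) := by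
          intro x hx
          rw [eval₂_rootPoly, add_sub_cancel_left, two_roots b (deriv_rootPoly hm0 hx), hmre,
            ← Complex.ofReal_mul, Complex.ofReal_re, Complex.ofReal_re]
          ring
        have habs : 1 ≤ |(s m).re| := by
          rw [hmre, Complex.norm_real, Real.norm_eq_abs] at h1
          exact h1
        right
        rcases le_abs.1 habs with h | h
        · refine ⟨4, by norm_num, le_rfl, fun x hx => Or.inl ?_⟩
          rw [hre x hx]
          nlinarith
        · refine ⟨0, le_rfl, by norm_num, fun x hx => Or.inr ?_⟩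
          rw [hre x hx]
          nlinarith
      · left
        intro x hx
        rw [eval₂_rootPoly, add_sub_cancel_left]
        exact eighth_le hg h1 b hb (deriv_rootPoly hm0 hx)

/-- the values `0`, `1`, `-1` -/
theorem cyclotomic_int {κ : ℤ} (hκ : |κ| ≤ 1) : Cyclotomic (κ : ℚ) := by
  obtain ⟨δ, hδ⟩ := IsAlgClosed.exists_pow_nat_eq (k := AlgebraicClosure ℚ)
    ((κ : AlgebraicClosure ℚ) ^ 2 - 4) two_pos
  set ζ : AlgebraicClosure ℚ := (κ + δ) / 2 with hζ
  have h1 : ζ ^ 2 - κ * ζ + 1 = 0 := by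
    rw [hζ]
    linear_combination hδ / 4
  have h0 : ζ ≠ 0 := by
    intro h
    rw [h] at h1
    norm_num at h1
  have h12 : ζ ^ 12 = 1 := by
    have h2 : ζ ^ 2 = κ * ζ - 1 := by linear_combination h1
    have h3 := abs_le.1 hκ
    have h4 : κ = -1 ∨ κ = 0 ∨ κ = 1 := by omega
    rcases h4 with rfl | rfl | rfl
    · have h5 : ζ ^ 3 = 1 := by
        push_cast at h2
        linear_combination (ζ - 1) * h2
      calc ζ ^ 12 = (ζ ^ 3) ^ 4 := by ring
        _ = 1 := by rw [h5, one_pow]
    · have h5 : ζ ^ 2 = -1 := by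
        rw [h2]
        push_cast
        ring
      calc ζ ^ 12 = (ζ ^ 2) ^ 6 := by ring
        _ = 1 := by rw [h5]; norm_num
    · have h5 : ζ ^ 3 = -1 := by
        push_cast at h2
        linear_combination (ζ + 1) * h2
      calc ζ ^ 12 = (ζ ^ 3) ^ 4 := by ring
        _ = 1 := by rw [h5]; norm_num
  refine ⟨ζ, 12, by norm_num, h12, ?_⟩
  rw [map_intCast]
  field_simp
  linear_combination -h1

/-- Let `K` be a number field, `F` a polynomial of degree `g + 1` whose coefficients are algebraic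
integers of `K`, and `C` the plane curve `z + 1/z = F(x)` over `K`, that is, `z² - F(x) z + 1 = 0`
(if it is smooth, it is the affine part of a hyperelliptic curve of genus `g`). Let `κ ≠ 2, -2` be an
element of `K` of the form `ζ + 1/ζ` with a root of unity `ζ`, and `b_0, ..., b_g` different elements
of `K` with `F(b_i) = κ`, so that `F = κ + m ∏ (x - b_i)`.

(1) The coordinate ring of `C` is a domain. If the `b_i` are algebraic integers, then the symbols
`{z, (x - b_i) / (x - b_j)}` are unramified at all discrete valuations of the function field of `C`.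
Let `s` be an embedding of `K` into `ℂ`, such that `C` is smooth at its complex points over `s` and
the critical values `v` of `F` at `s` are real (this holds if `s` is a real embedding). Suppose that
`|v - s(κ)| ≥ 3/8` for all critical values, or that there is `p` with `0 ≤ p ≤ 4` such that no
critical value lies between `s(κ) - 1/p` and `s(κ) + 1/(4 - p)` (see `CritDistant`). Then there are
`g` loops in the complex points of `C` over `s` such that the determinant of the regulators of the `g`
symbols `{z, (x - b_k) / (x - b_0)}` on the `g` loops does not vanish.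

(2) Let the `b_i` be different rational integers, `m` an algebraic integer of `K` and
`F = κ + m ∏ (x - b_i)`. Then the symbols are unramified, and the conclusion of (1) holds at each
embedding `s` at which `C` is smooth and `s(m)` is real with `|s(m)| ≥ 1`.

(3) For `K = ℚ`: let `m ≠ 0` and `b_0, ..., b_g` be rational integers, the `b_i` different, and `κ` one
of `0`, `1`, `-1`. If the curve `z + 1/z = κ + m ∏ (x - b_i)` is smooth, then the symbols
`{z, (x - b_i) / (x - b_j)}` are unramified, and the regulators of the `g` symbols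
`{z, (x - b_k) / (x - b_0)}` on `g` loops have a nonzero determinant. -/
theorem result.{u, v} (g : ℕ) :
    (∀ (K : Type u) [Field K] [NumberField K] (F : K[X]), (∀ i, IsIntegral ℤ (F.coeff i)) →
      F.natDegree = g + 1 → IsDomain (PRing F) ∧
      ∀ κ : K, Cyclotomic κ → κ ^ 2 ≠ 4 → ∀ b : Fin (g + 1) → K, Function.Injective b →
        (∀ i, F.eval (b i) = κ) →
        ((∀ i, IsIntegral ℤ (b i)) → UnramifiedSymbols.{u, v} F b) ∧
        ∀ s : K →+* ℂ, SmoothPts s F → ((∀ y, (s y).im = 0) ∨ CritReal s F) →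
          CritDistant s F κ → IndependentRegulators s F b) ∧
    (∀ (K : Type u) [Field K] [NumberField K] (κ m : K), Cyclotomic κ → κ ^ 2 ≠ 4 →
      IsIntegral ℤ m → ∀ b : Fin (g + 1) → ℤ, Function.Injective b →
        UnramifiedSymbols.{u, v} (rootPoly κ m b) (fun i => (b i : K)) ∧
        ∀ s : K →+* ℂ, (s m).im = 0 → 1 ≤ ‖s m‖ → SmoothPts s (rootPoly κ m b) →
          IndependentRegulators s (rootPoly κ m b) fun i => (b i : K)) ∧
    ∀ κ m : ℤ, |κ| ≤ 1 → m ≠ 0 → ∀ b : Fin (g + 1) → ℤ, Function.Injective b →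
      ∀ s : ℚ →+* ℂ, SmoothPts s (rootPoly (κ : ℚ) (m : ℚ) b) →
        UnramifiedSymbols.{0, v} (rootPoly (κ : ℚ) (m : ℚ) b) (fun i => (b i : ℚ)) ∧
        IndependentRegulators s (rootPoly (κ : ℚ) (m : ℚ) b) fun i => (b i : ℚ) := by
  refine ⟨fun K _ _ F hF hdeg => ⟨isDomain_PRing (by omega), fun κ hκ h4 b hb hFb =>
    ⟨fun hint => unramified hF hκ hint hFb, fun s hsm hreal hdist =>
      independent hdeg hκ h4 hb hFb hsm hreal hdist⟩⟩,
    fun K _ _ κ m hκ h4 hm b hb => integers hκ h4 hm hb, fun κ m hκ hm b hb s hsm => ?_⟩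
  have h4 : ((κ : ℚ)) ^ 2 ≠ 4 := by
    have h1 := abs_le.1 hκ
    have h2 : κ ^ 2 ≠ 4 := by nlinarith
    exact_mod_cast h2
  have hmi : IsIntegral ℤ (m : ℚ) := isIntegral_algebraMap (R := ℤ) (A := ℚ) (x := m)
  obtain ⟨h1, h2⟩ := integers.{0, v} (cyclotomic_int hκ) h4 hmi hb
  have hsm' : s (m : ℚ) = (m : ℂ) := map_intCast s m
  refine ⟨h1, h2 s (by rw [hsm', Complex.intCast_im]) ?_ hsm⟩
  rw [hsm', Complex.norm_intCast]
  exact_mod_cast Int.one_le_abs hm

end Pool.Agent.Results.MP_743d1e_nt.RealRooted
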